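import Mathlib

/-!
# Equisingularity of hypersurface germs (Zariski): definitions

A germ of an algebroid variety in affine `n`-space over the field `K` at the origin `Q` is given by
an ideal `I` of `MvPowerSeries (Fin n) K`, an irreducible subvariety `M` by a prime ideal `P`.
All critical varieties are taken with their reduced structure (radical ideals).
-/

namespace Pool.Agent.ZAR

open MvPowerSeries

/-- The maximal ideal (power series without constant term). -/
noncomputable def mI (n : ℕ) (K : Type) [Field K] : Ideal (MvPowerSeries (Fin n) K) :=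
  RingHom.ker (constantCoeff (σ := Fin n) (R := K))

/-- The ideal of the singular locus of `V(I)`: generated by `I` and the partial derivatives of
the elements of `I`. -/
noncomputable def singI {n : ℕ} {K : Type} [Field K] (I : Ideal (MvPowerSeries (Fin n) K)) :
    Ideal (MvPowerSeries (Fin n) K) :=
  Ideal.span ((I : Set (MvPowerSeries (Fin n) K)) ∪ {g | ∃ f ∈ I, ∃ i, g = pderiv K i f})

/-- `x` is (a family of representatives of) a basis of the maximal ideal of the local ring
`K[[z]]/I` of `V(I)` at `Q`. -/
def IsBasis {n : ℕ} {K : Type} [Field K] (I : Ideal (MvPowerSeries (Fin n) K))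
    (x : Fin n → MvPowerSeries (Fin n) K) : Prop :=
  Ideal.span (Set.range x) ⊔ I = mI n K

/-- Coefficientwise extension of the ground field. -/
noncomputable abbrev bc (K L : Type) [Field K] [Field L] [Algebra K L] (σ : Type) :
    MvPowerSeries σ K →+* MvPowerSeries σ L :=
  MvPowerSeries.map (algebraMap K L)

section general

variable {n : ℕ} {K L : Type} [Field K] [Field L] [Algebra K L]

/-- The variety over the larger ground field `L` (reduced). -/
noncomputable def extI (L : Type) [Field L] [Algebra K L] (I : Ideal (MvPowerSeries (Fin n) K)) :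
    Ideal (MvPowerSeries (Fin n) L) :=
  (I.map (bc K L (Fin n))).radical

/-- The linear combinations `x_i^u = ∑_j u_ij x_j`, `i < n`, of `x_0, …, x_n`. -/
noncomputable def xu (u : Fin n → Fin (n + 1) → L)
    (x : Fin (n + 1) → MvPowerSeries (Fin (n + 1)) K) :
    Fin n → MvPowerSeries (Fin (n + 1)) L :=
  fun i => ∑ j, C (u i j) * bc K L (Fin (n + 1)) (x j)

/-- The Jacobian determinant of `(f, y_0, …, y_(n-1))`. -/
noncomputable def jac (y : Fin n → MvPowerSeries (Fin (n + 1)) L)
    (f : MvPowerSeries (Fin (n + 1)) L) : MvPowerSeries (Fin (n + 1)) L :=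
  (Matrix.of fun a j : Fin (n + 1) =>
    pderiv L j ((Fin.cons f y : Fin (n + 1) → MvPowerSeries (Fin (n + 1)) L) a)).det

/-- The closed image (reduced) of `V(J)` under the map with coordinates `y`. -/
noncomputable def proj (y : Fin n → MvPowerSeries (Fin (n + 1)) L)
    (J : Ideal (MvPowerSeries (Fin (n + 1)) L)) : Ideal (MvPowerSeries (Fin n) L) :=
  (Ideal.span {g | subst y g ∈ J}).radical

/-- The ideal of the critical locus of the map `V(J) → r-space` with coordinates `y`. -/
noncomputable def critLocus (y : Fin n → MvPowerSeries (Fin (n + 1)) L)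
    (J : Ideal (MvPowerSeries (Fin (n + 1)) L)) : Ideal (MvPowerSeries (Fin (n + 1)) L) :=
  Ideal.span ((J : Set (MvPowerSeries (Fin (n + 1)) L)) ∪ jac y '' (J : Set _))

/-- The critical variety of `V(I)` for the parameters `x^u`. -/
noncomputable def critI (u : Fin n → Fin (n + 1) → L)
    (x : Fin (n + 1) → MvPowerSeries (Fin (n + 1)) K) (I : Ideal (MvPowerSeries (Fin (n + 1)) K)) :
    Ideal (MvPowerSeries (Fin n) L) :=
  proj (xu u x) (critLocus (xu u x) (extI L I))

/-- The image of `M = V(P)` under the map with coordinates `x^u`. -/
noncomputable def imgI (u : Fin n → Fin (n + 1) → L)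
    (x : Fin (n + 1) → MvPowerSeries (Fin (n + 1)) K) (P : Ideal (MvPowerSeries (Fin (n + 1)) K)) :
    Ideal (MvPowerSeries (Fin n) L) :=
  proj (xu u x) (extI L P)

end general

/-- The algebraic closure of `K(u_ij : i < n, j < n + 1)`. -/
abbrev KU (n : ℕ) (K : Type) [Field K] : Type :=
  AlgebraicClosure (FractionRing (MvPolynomial (Fin n × Fin (n + 1)) K))

/-- The indeterminates `u_ij`. -/
noncomputable def uu (n : ℕ) (K : Type) [Field K] (i : Fin n) (j : Fin (n + 1)) : KU n K :=
  algebraMap (FractionRing (MvPolynomial (Fin n × Fin (n + 1)) K)) (KU n K)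
    (algebraMap (MvPolynomial (Fin n × Fin (n + 1)) K)
      (FractionRing (MvPolynomial (Fin n × Fin (n + 1)) K)) (MvPolynomial.X (i, j)))

/-- `Equisingular B s n K I P`: the hypersurface germ `V(I)` in `n`-space over `K` is equisingular at
the origin `Q` along `M = V(P)`, where `M` has codimension `s` in `V(I)` and the bases are taken from
the class `B`.

* `simple`: `M` is not contained in the singular locus and `Q` is a simple point.
* `step`: `M` is contained in the singular locus, and for some basis `x` (in the class `B`) the
  critical variety for the generic linear combinations `x^u`, over the algebraic closure of `K(u)`,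
  is equisingular at the origin along the image of `M`. -/
inductive Equisingular
    (B : (n : ℕ) → (K : Type) → [Field K] → (Fin n → MvPowerSeries (Fin n) K) → Prop) :
    (s n : ℕ) → (K : Type) → [Field K] → Ideal (MvPowerSeries (Fin n) K) →
    Ideal (MvPowerSeries (Fin n) K) → Prop
  | simple (s n : ℕ) (K : Type) [Field K] (I P : Ideal (MvPowerSeries (Fin n) K)) :
      ¬ singI I ≤ P → singI I = ⊤ → Equisingular B s n K I P
  | step (s n : ℕ) (K : Type) [Field K] (I P : Ideal (MvPowerSeries (Fin (n + 1)) K))
      (x : Fin (n + 1) → MvPowerSeries (Fin (n + 1)) K) :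
      singI I ≤ P → B (n + 1) K x → IsBasis I x →
      Equisingular B s n (KU n K) (critI (uu n K) x I) (imgI (uu n K) x P) →
      Equisingular B (s + 1) (n + 1) K I P

end Pool.Agent.ZAR
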