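import Pool.Agent.ZAR.Base

/-!
# Equisingularity, recursive forms of the definition
-/

namespace Pool.Agent.ZAR

open MvPowerSeries

/-- `Equi s n K I P`: the hypersurface germ `V(I)` in `n`-space is equisingular at `Q` along
`M = V(P)`, where `M` has codimension `s` in `V(I)` (induction on `s`). -/
def Equi : (s n : ℕ) → (K : Type) → [Field K] → Ideal (MvPowerSeries (Fin n) K) →
    Ideal (MvPowerSeries (Fin n) K) → Prop
  | 0, _, _, _, I, P => ¬ singI I ≤ P ∧ singI I = ⊤
  | _ + 1, 0, _, _, I, P => ¬ singI I ≤ P ∧ singI I = ⊤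
  | s + 1, n + 1, K, _, I, P =>
      (¬ singI I ≤ P ∧ singI I = ⊤) ∨
      (singI I ≤ P ∧ ∃ x : Fin (n + 1) → MvPowerSeries (Fin (n + 1)) K, IsBasis I x ∧
        Equi s n (KU n K) (critI (uu n K) x I) (imgI (uu n K) x P))

/-- The same with a class `B` of admissible bases (all formal ones, the algebraic ones, linear
coordinates, ...). -/
def EquiB (B : (n : ℕ) → (K : Type) → [Field K] → (Fin n → MvPowerSeries (Fin n) K) → Prop) :
    (s n : ℕ) → (K : Type) → [Field K] → Ideal (MvPowerSeries (Fin n) K) →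
    Ideal (MvPowerSeries (Fin n) K) → Prop
  | 0, _, _, _, I, P => ¬ singI I ≤ P ∧ singI I = ⊤
  | _ + 1, 0, _, _, I, P => ¬ singI I ≤ P ∧ singI I = ⊤
  | s + 1, n + 1, K, _, I, P =>
      (¬ singI I ≤ P ∧ singI I = ⊤) ∨
      (singI I ≤ P ∧ ∃ x : Fin (n + 1) → MvPowerSeries (Fin (n + 1)) K, B (n + 1) K x ∧
        IsBasis I x ∧ EquiB B s n (KU n K) (critI (uu n K) x I) (imgI (uu n K) x P))

end Pool.Agent.ZAR
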