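import Pool.Agent.ZAR.Defs

/-!
# Statements of the rows (table zar), problem MP_c9b61d_ag

All statements are about formal power series over a field of characteristic 0.  `X 0, X 1, ...` are
the variables, `C` the constants.
-/

namespace Pool.Agent.ZAR

open MvPowerSeries

/-! ## Auxiliary definitions -/

/-- The push forward of the family of points `b` (coordinates: power series in the parameters) under
`x^u`. -/
noncomputable def pf {n : ℕ} {K L : Type} [Field K] [Field L] [Algebra K L] {σ : Type}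
    (u : Fin n → Fin (n + 1) → L) (x : Fin (n + 1) → MvPowerSeries (Fin (n + 1)) K)
    (b : Fin (n + 1) → MvPowerSeries σ K) : Fin n → MvPowerSeries σ L :=
  fun i => ∑ j, C (u i j) * bc K L σ (subst b (x j))

/-- `V(I)` contains the family `a`. -/
def Van {n p : ℕ} {K : Type} [Field K] (I : Ideal (MvPowerSeries (Fin n) K))
    (a : Fin n → MvPowerSeries (Fin p) K) : Prop :=
  (∀ i, constantCoeff (a i) = 0) ∧ ∀ f ∈ I, subst a f = 0

/-- The families `a` and `a'` meet transversally along their common subfamily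
`a ∘ s = a' ∘ s'` (the tangent vectors of both span the whole space at the generic point). -/
def Tv {n p p' q : ℕ} {K : Type} [Field K]
    (a : Fin n → MvPowerSeries (Fin p) K) (a' : Fin n → MvPowerSeries (Fin p') K)
    (s : Fin p → MvPowerSeries (Fin q) K) (s' : Fin p' → MvPowerSeries (Fin q) K) : Prop :=
  (∀ i, constantCoeff (s i) = 0) ∧ (∀ i, constantCoeff (s' i) = 0) ∧
  (∀ j, subst s (a j) = subst s' (a' j)) ∧
  ∀ (L : Type) [Field L] [Algebra K L] (g : Fin n → MvPowerSeries (Fin q) L),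
    (∀ i, ∑ j, g j * bc K L (Fin q) (subst s (pderiv K i (a j))) = 0) →
    (∀ i, ∑ j, g j * bc K L (Fin q) (subst s' (pderiv K i (a' j))) = 0) → g = 0

/-- The matrix whose columns are the tangent vectors of `a` along `s` and of `a'` along `s'`,
columns chosen by `c`. -/
noncomputable def tanM {n p p' q m : ℕ} {K : Type} [Field K]
    (a : Fin n → MvPowerSeries (Fin p) K) (a' : Fin n → MvPowerSeries (Fin p') K)
    (s : Fin p → MvPowerSeries (Fin q) K) (s' : Fin p' → MvPowerSeries (Fin q) K)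
    (c : Fin m → Fin p ⊕ Fin p') : Matrix (Fin n) (Fin m) (MvPowerSeries (Fin q) K) :=
  Matrix.of fun j k => Sum.elim (fun i => subst s (pderiv K i (a j)))
    (fun i => subst s' (pderiv K i (a' j))) (c k)

/-- `u` is generic over `K`. -/
def Gen (K : Type) {L : Type} [Field K] [Field L] [Algebra K L] {n : ℕ}
    (u : Fin n → Fin (n + 1) → L) : Prop :=
  AlgebraicIndependent K (fun p : Fin n × Fin (n + 1) => u p.1 p.2)

/-- The kernel vector of `u` (signed minors). -/
noncomputable def kv {L : Type} [Field L] {n : ℕ} (u : Fin n → Fin (n + 1) → L)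
    (j : Fin (n + 1)) : L :=
  (-1) ^ (j : ℕ) * (Matrix.of fun i k : Fin n => u i (j.succAbove k)).det

/-- The Jacobian matrix at the origin. -/
noncomputable def jac0 {n : ℕ} {K : Type} [Field K] (x : Fin n → MvPowerSeries (Fin n) K) :
    Matrix (Fin n) (Fin n) K :=
  Matrix.of fun i j => constantCoeff (pderiv K j (x i))

/-- `x` is a formal coordinate system. -/
def Coord {n : ℕ} {K : Type} [Field K] (x : Fin n → MvPowerSeries (Fin n) K) : Prop :=
  (∀ i, constantCoeff (x i) = 0) ∧ (jac0 x).det ≠ 0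

/-- The tangent vector at the origin of an arc. -/
noncomputable def tg {n : ℕ} {K : Type} [Field K] (a : Fin n → MvPowerSeries (Fin 1) K) :
    Fin n → K :=
  fun j => constantCoeff (pderiv K 0 (a j))

/-- `I` is stable under the constant derivation `∑ e_j ∂_j`. -/
def Stab {n : ℕ} {K : Type} [Field K] (e : Fin n → K) (I : Ideal (MvPowerSeries (Fin n) K)) :
    Prop :=
  ∀ f ∈ I, ∑ j, C (e j) * pderiv K j f ∈ I

/-- The prime ideal of the line through the origin with direction `e`. -/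
noncomputable def PL {n : ℕ} {K : Type} [Field K] (e : Fin n → K) :
    Ideal (MvPowerSeries (Fin n) K) :=
  Ideal.span {f | ∃ i j : Fin n, f = C (e i) * X j - C (e j) * X i}

/-- The values of a power series on the line with direction `e`. -/
noncomputable def evL {n : ℕ} {K : Type} [Field K] (e : Fin n → K)
    (f : MvPowerSeries (Fin n) K) : MvPowerSeries (Fin 1) K :=
  subst (fun i => (C (e i) * X 0 : MvPowerSeries (Fin 1) K)) f

/-! ## Part 1: tools -/

/-- CHA. Chain rule.  Both sides are, for fixed `a`, additive in `f` and compatible with truncation: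
for `f` a monomial it is the Leibniz rule; the coefficient of degree `d` of both sides depends only
on the truncation of `f` in degree `≤ |d| + 1` (as `a` has no constant terms). -/
def CHAStmt : Prop :=
  ∀ (K : Type) [Field K] (m n : ℕ) (a : Fin m → MvPowerSeries (Fin n) K),
    (∀ i, constantCoeff (a i) = 0) → ∀ (f : MvPowerSeries (Fin m) K) (j : Fin n),
    pderiv K j (subst a f) = ∑ i, subst a (pderiv K i f) * pderiv K j (a i)

/-- HAD. Hadamard quotients.  For a monomial `z^d`: `z_i` is replaced by `z'_i` one variable after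
the other, and `z_i^k - z'_i^k = (z_i - z'_i) ∑ z_i^l z'_i^(k-1-l)`; in general sum over the
monomials (the quotients of monomials of degree `k` are homogeneous of degree `k - 1`). -/
def HADStmt : Prop :=
  ∀ (K : Type) [Field K] (σ : Type) [Fintype σ] (f : MvPowerSeries σ K),
    ∃ q : σ → MvPowerSeries (σ ⊕ σ) K, ∀ (τ : Type) [Finite τ] (a b : σ → MvPowerSeries τ K),
      (∀ i, constantCoeff (a i) = 0) → (∀ i, constantCoeff (b i) = 0) →
      subst a f - subst b f = ∑ i, (a i - b i) * subst (Sum.elim a b) (q i) ∧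
      ∀ i, subst (Sum.elim a a) (q i) = subst a (pderiv K i f)

/-- NEW. Newton iteration `y_(k+1) = y_k - M⁻¹ F(y_k)` in a complete ring. -/
def NEWStmt : Prop :=
  ∀ (S : Type) [CommRing S] (m : Ideal S) [IsAdicComplete m S] (n : ℕ)
    (F : (Fin n → S) → (Fin n → S)) (M : Matrix (Fin n) (Fin n) S) (y0 : Fin n → S),
    IsUnit M.det → (∀ i, F y0 i ∈ m) →
    (∀ (k : ℕ) (y y' : Fin n → S), (∀ i, y i - y0 i ∈ m) → (∀ i, y' i - y0 i ∈ m) →
      (∀ i, y i - y' i ∈ m ^ k) → ∀ i, F y i - F y' i - (M.mulVec (y - y')) i ∈ m ^ (k + 1)) →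
    ∃ y : Fin n → S, (∀ i, y i - y0 i ∈ m) ∧ F y = 0

/-- GUU. The matrix `uu` is generic over `K`. -/
def GUUStmt : Prop :=
  ∀ (n : ℕ) (K : Type) [Field K], Gen K (uu n K)

/-- GPS. A nonzero polynomial in the `u_ij` with power series coefficients does not vanish at a
generic matrix: the coefficient of some monomial in the parameters is a nonzero polynomial over `K`
in the `u_ij`. -/
def GPSStmt : Prop :=
  ∀ (K L : Type) [Field K] [Field L] [Algebra K L] (n q : ℕ) (u : Fin n → Fin (n + 1) → L),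
    Gen K u → ∀ (Q : MvPolynomial (Fin n × Fin (n + 1)) (MvPowerSeries (Fin q) K)), Q ≠ 0 →
      MvPolynomial.eval₂ (bc K L (Fin q)) (fun p => C (u p.1 p.2)) Q ≠ 0

/-- GDT. `det (u N) ≠ 0` if `det (B N) ≠ 0` for some matrix `B` of power series over `K`: the
polynomial `det (U N)` in the entries of `U` is nonzero, GPS. -/
def GDTStmt : Prop :=
  ∀ (K L : Type) [Field K] [Field L] [Algebra K L] (n q : ℕ) (u : Fin n → Fin (n + 1) → L),
    Gen K u → ∀ (N : Matrix (Fin (n + 1)) (Fin n) (MvPowerSeries (Fin q) K))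
      (B : Matrix (Fin n) (Fin (n + 1)) (MvPowerSeries (Fin q) K)), (B * N).det ≠ 0 →
      ((Matrix.of fun i j => (C (u i j) : MvPowerSeries (Fin q) L)) *
        N.map (bc K L (Fin q))).det ≠ 0

/-- GDF. The same for constants. -/
def GDFStmt : Prop :=
  ∀ (K L : Type) [Field K] [Field L] [Algebra K L] (n : ℕ) (u : Fin n → Fin (n + 1) → L),
    Gen K u → ∀ (N : Matrix (Fin (n + 1)) (Fin n) K) (B : Matrix (Fin n) (Fin (n + 1)) K),
      (B * N).det ≠ 0 → (Matrix.of u * N.map (algebraMap K L)).det ≠ 0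

/-- GVK. A nonzero homogeneous polynomial over `K` does not vanish at the kernel vector of a generic
matrix, and the kernel vector is in the kernel.  (For every `v ∈ K^(n+1)`, `v ≠ 0`, there is a matrix
over `K` whose vector of signed minors is a nonzero multiple of `v`; `K` is infinite.) -/
def GVKStmt : Prop :=
  ∀ (K L : Type) [Field K] [Field L] [Algebra K L] [CharZero K] (n : ℕ)
    (u : Fin n → Fin (n + 1) → L), Gen K u →
    (∀ i, ∑ j, u i j * kv u j = 0) ∧
    ∀ (d : ℕ) (F : MvPolynomial (Fin (n + 1)) K), F.IsHomogeneous d → F ≠ 0 →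
      MvPolynomial.aeval (kv u) F ≠ 0

/-- GIN. A generic projection keeps two linearly independent vectors of `K^(n+1)` linearly
independent if `2 ≤ n`. -/
def GINStmt : Prop :=
  ∀ (K L : Type) [Field K] [Field L] [Algebra K L] (n : ℕ) (u : Fin n → Fin (n + 1) → L),
    2 ≤ n → Gen K u → ∀ a b : Fin (n + 1) → K, LinearIndependent K ![a, b] →
    LinearIndependent L ![fun i => ∑ j, u i j * algebraMap K L (a j),
      fun i => ∑ j, u i j * algebraMap K L (b j)]

/-! ## Part 2: the cylinder theorem -/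

/-- RDS. The radical of an ideal stable under `D = ∑ e_j ∂_j` is stable (characteristic 0):
`g^n ∈ I` implies `g^(n-k) (Dg)^(2k-1) ∈ I` by induction on `k`. -/
def RDSStmt : Prop :=
  ∀ (K : Type) [Field K] [CharZero K] (n : ℕ) (e : Fin n → K)
    (I : Ideal (MvPowerSeries (Fin n) K)), Stab e I → Stab e I.radical

/-- STC. Stability passes to the critical variety for the standard basis: `Stab` for `I.map (bc ..)`
is clear on generators (Leibniz), RDS gives `extI`; `jac y f` with `y = xu u X` is a combination of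
the `∂_j f` with constant coefficients, so `D (jac y f) = jac y (D f)`; for `g` with
`subst y g ∈ J`, CHA gives `D (subst y g) = subst y (D' g)`, `D'` the derivation with direction
`u e`; then RDS again. -/
def STCStmt : Prop :=
  ∀ (K L : Type) [Field K] [CharZero K] [Field L] [Algebra K L] (n : ℕ)
    (u : Fin n → Fin (n + 1) → L) (e : Fin (n + 1) → K)
    (I : Ideal (MvPowerSeries (Fin (n + 1)) K)), Stab e I →
    Stab (fun i => ∑ j, u i j * algebraMap K L (e j)) (critI u X I)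

/-- KER. `PL e` is the kernel of the restriction to the line (HAD with the point
`(e_j / e_i) X_i`, `e_i ≠ 0`). -/
def KERStmt : Prop :=
  ∀ (K : Type) [Field K] (n : ℕ) (e : Fin n → K), e ≠ 0 → ∀ f : MvPowerSeries (Fin n) K,
    f ∈ PL e ↔ evL e f = 0

/-- IMP. The image of a line. `extI L (PL e) = PL e` over `L` (generators; `PL` is prime by KER),
`evL e (subst (xu u X) g) = evL (u e) g`. -/
def IMPStmt : Prop :=
  ∀ (K L : Type) [Field K] [Field L] [Algebra K L] (n : ℕ) (u : Fin n → Fin (n + 1) → L)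
    (e : Fin (n + 1) → K), e ≠ 0 → (fun i => ∑ j, u i j * algebraMap K L (e j)) ≠ 0 →
    imgI u X (PL e) = PL (fun i => ∑ j, u i j * algebraMap K L (e j))

/-- DIC. For an ideal stable under `D = ∑ e_j ∂_j` (`e ≠ 0`): either the singular locus contains the
line or it is empty.  `singI I` is stable; if `g ∈ singI I` has `evL e g ≠ 0`, of order `m`, then
`D^m g` has the constant term `m! *` (coefficient) `≠ 0`, so it is a unit. -/
def DICStmt : Prop :=
  ∀ (K : Type) [Field K] [CharZero K] (n : ℕ) (e : Fin n → K)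
    (I : Ideal (MvPowerSeries (Fin n) K)), e ≠ 0 → Stab e I → singI I ≤ PL e ∨ singI I = ⊤

/-- BAS. Two variables: a nonzero radical stable ideal has no singular point.  Let `ℓ` be the linear
form which generates `PL e`; `0 ≠ f ∈ I`, `f = ℓ^m g` with `evL e g ≠ 0`; `D ℓ = 0`, so
`ℓ^m D^j g ∈ I` and `D^j g` is a unit for some `j`; hence `ℓ ∈ I` or `I = ⊤`, and
`∂_i ℓ` is a unit for some `i`. -/
def BASStmt : Prop :=
  ∀ (K : Type) [Field K] [CharZero K] (e : Fin 2 → K)
    (I : Ideal (MvPowerSeries (Fin 2) K)), e ≠ 0 → Stab e I → I.IsRadical → I ≠ ⊥ →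
    ¬ singI I ≤ PL e ∧ singI I = ⊤

/-- NZA. Abstract nonvanishing: `D` a derivation of `R`, `I` a radical ideal with an element `g` such
that `D^d g` is a unit, every element of `R` integral modulo `I` over the domain `A`.  Then
`I + D I` contains the image of a nonzero element of `A`.  Proof: otherwise there is a prime `q`
containing `I + D I` and no `θ a`, `a ≠ 0` (Ideal.exists_le_prime_disjoint); `q` is minimal over `I`
(Ideal.exists_minimalPrimes_le and
Ideal.exists_coeff_mem_comap_sdiff_comap_of_root_mem_sdiff); for `h ∈ q` there is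
`s ∉ q` with `s h ∈ I` (`I` radical; localize or use Ideal.iUnion_minimalPrimes), so
`s D h = D (s h) - h D s ∈ q` and `D h ∈ q`; hence `D^d g ∈ q`, a contradiction. -/
def NZAStmt : Prop :=
  ∀ (A R : Type) [CommRing A] [IsDomain A] [CommRing R] (θ : A →+* R) (D : Derivation ℤ R R)
    (I : Ideal R) (g : R) (d : ℕ), I.IsRadical → g ∈ I → IsUnit (D^[d] g) →
    (∀ r : R, ∃ p : Polynomial A, p.Monic ∧ p.eval₂ θ r ∈ I) →
    ∃ a : A, a ≠ 0 ∧ θ a ∈ Ideal.span ((I : Set R) ∪ D '' (I : Set R))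

/-- WEI. Weierstrass: if `g` does not vanish identically on the line with direction `kv u` then every
power series is integral modulo `g` over the power series in `x^u`.  The linear coordinate change
`z_0 ↦ z_0, z_(i+1) ↦ x_i^u` (or another index than `0`; `kv u j ≠ 0` for all `j` used) is an
automorphism; then MvPowerSeries.finSuccEquiv and PowerSeries.exists_isWeierstrassDivision (complete:
instance in RingTheory/AdicCompletion/Completeness); finite modules are integral. -/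
def WEIStmt : Prop :=
  ∀ (L : Type) [Field L] (n : ℕ) (u : Fin n → Fin (n + 1) → L) (g : MvPowerSeries (Fin (n + 1)) L),
    (∀ j, kv u j ≠ 0) → evL (kv u) g ≠ 0 → ∀ r : MvPowerSeries (Fin (n + 1)) L,
    ∃ p : Polynomial (MvPowerSeries (Fin n) L), p.Monic ∧
      ∃ h : MvPowerSeries (Fin (n + 1)) L,
        ∑ i ∈ Finset.range (p.natDegree + 1), subst (xu (K := L) u X) (p.coeff i) * r ^ i = h * g

/-- NZC. The critical variety of a nonzero radical ideal is not the whole space.  For `0 ≠ f ∈ I` the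
restriction of `f` to the line with direction `kv u` is nonzero (GVK for the leading form of `f`);
`jac (xu u X)` is a derivation, equal to `∑ ± kv u j ∂_j`; NZA with WEI. -/
def NZCStmt : Prop :=
  ∀ (K L : Type) [Field K] [CharZero K] [Field L] [Algebra K L] (n : ℕ)
    (u : Fin n → Fin (n + 1) → L) (I : Ideal (MvPowerSeries (Fin (n + 1)) K)),
    Gen K u → I ≠ ⊥ → critI u X I ≠ ⊥

/-- CYL. The cylinder theorem: for a nonzero radical ideal stable under `∑ e_j ∂_j`, `e ≠ 0`, the germ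
is equisingular along the line with direction `e`.  Induction on `s` (all fields): BAS; DIC, and in
the singular case the standard basis `X`, STC, NZC, IMP, and `u e ≠ 0` (GVK or GPS). -/
def CYLStmt : Prop :=
  ∀ (B : (n : ℕ) → (K : Type) → [Field K] → (Fin n → MvPowerSeries (Fin n) K) → Prop),
    (∀ (n : ℕ) (K : Type) [Field K], B n K X) →
    ∀ (s : ℕ) (K : Type) [Field K] [CharZero K] (e : Fin (s + 2) → K)
    (I : Ideal (MvPowerSeries (Fin (s + 2)) K)), e ≠ 0 → Stab e I → I.IsRadical → I ≠ ⊥ →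
    EquiB B s (s + 2) K I (PL e)

/-- EQB. Monotonicity in the class of bases. -/
def EQBStmt : Prop :=
  ∀ (B : (n : ℕ) → (K : Type) → [Field K] → (Fin n → MvPowerSeries (Fin n) K) → Prop)
    (s n : ℕ) (K : Type) [Field K] (I P : Ideal (MvPowerSeries (Fin n) K)),
    EquiB B s n K I P → Equi s n K I P

/-! ## Part 3: families of points and generic projections -/

/-- `Y` is a family of points of `V(I)` along which two families of points of `V(I)` meet
transversally (so `Y` lies in the singular locus). -/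
def SV {n q : ℕ} {K : Type} [Field K] (I : Ideal (MvPowerSeries (Fin n) K))
    (Y : Fin n → MvPowerSeries (Fin q) K) : Prop :=
  ∃ (p p' : ℕ) (a : Fin n → MvPowerSeries (Fin p) K) (a' : Fin n → MvPowerSeries (Fin p') K)
    (s : Fin p → MvPowerSeries (Fin q) K) (s' : Fin p' → MvPowerSeries (Fin q) K),
    Van I a ∧ Van I a' ∧ Tv a a' s s' ∧ ∀ j, subst s (a j) = Y j

/-- TRA. On `Y` all elements of `extI L I` and all their partial derivatives vanish: `f ∈ extI L I`
vanishes on `a`, `a'` (over `L`; kernels of substitutions are radical), CHA, substitute `s`, `s'`, and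
use the last part of `Tv` for `g_j = (∂_j f)(Y)`. -/
def TRAStmt : Prop :=
  ∀ (K L : Type) [Field K] [Field L] [Algebra K L] (n q : ℕ) (I : Ideal (MvPowerSeries (Fin n) K))
    (Y : Fin n → MvPowerSeries (Fin q) K), SV I Y → ∀ f ∈ extI L I,
    subst (fun j => bc K L (Fin q) (Y j)) f = 0 ∧
      ∀ i, subst (fun j => bc K L (Fin q) (Y j)) (pderiv L i f) = 0

/-- BCO. Consequences over `K` (TRA with `L = K`): `singI I` is contained in the maximal ideal, and
every basis is a formal coordinate system (`I ⊆ m²`, Nakayama or compare linear parts). -/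
def BCOStmt : Prop :=
  ∀ (K : Type) [Field K] (n q : ℕ) (I : Ideal (MvPowerSeries (Fin n) K))
    (Y : Fin n → MvPowerSeries (Fin q) K), SV I Y →
    singI I ≠ ⊤ ∧ ∀ x : Fin n → MvPowerSeries (Fin n) K, IsBasis I x → Coord x

/-- TPU. Transversal families can be pushed: `critI u x I` vanishes on the push forward. -/
def TPUStmt : Prop :=
  ∀ (K L : Type) [Field K] [Field L] [Algebra K L] (n q : ℕ) (u : Fin n → Fin (n + 1) → L)
    (x : Fin (n + 1) → MvPowerSeries (Fin (n + 1)) K) (I : Ideal (MvPowerSeries (Fin (n + 1)) K))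
    (Y : Fin (n + 1) → MvPowerSeries (Fin q) K), (∀ i, constantCoeff (x i) = 0) → SV I Y →
    Van (critI u x I) (pf u x Y)

/-- PFS. Push forward and substitution commute. -/
def PFSStmt : Prop :=
  ∀ (K L : Type) [Field K] [Field L] [Algebra K L] (n p q : ℕ) (u : Fin n → Fin (n + 1) → L)
    (x : Fin (n + 1) → MvPowerSeries (Fin (n + 1)) K) (a : Fin (n + 1) → MvPowerSeries (Fin p) K)
    (s : Fin p → MvPowerSeries (Fin q) K), (∀ i, constantCoeff (x i) = 0) →
    (∀ i, constantCoeff (a i) = 0) → (∀ i, constantCoeff (s i) = 0) →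
    (∀ i, constantCoeff (pf u x a i) = 0) ∧
    ∀ i, pf u x (fun j => subst s (a j)) i = subst (fun l => bc K L (Fin q) (s l)) (pf u x a i)

/-- GPU. A generic projection of two families whose tangent vectors along the common subfamily span
at least a space of dimension `n` in `(n+1)`-space: the projections are transversal.  (Chain rule:
the tangent vectors of `pf u x a` are `u * (∂x)(Y) * (tangent vectors of a)`; GDT.) -/
def GPUStmt : Prop :=
  ∀ (K L : Type) [Field K] [Field L] [Algebra K L] (n p p' q : ℕ) (u : Fin n → Fin (n + 1) → L)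
    (x : Fin (n + 1) → MvPowerSeries (Fin (n + 1)) K) (a : Fin (n + 1) → MvPowerSeries (Fin p) K)
    (a' : Fin (n + 1) → MvPowerSeries (Fin p') K) (s : Fin p → MvPowerSeries (Fin q) K)
    (s' : Fin p' → MvPowerSeries (Fin q) K) (c : Fin n → Fin p ⊕ Fin p')
    (r : Fin n → Fin (n + 1)), Gen K u → Coord x →
    (∀ i, constantCoeff (a i) = 0) → (∀ i, constantCoeff (a' i) = 0) →
    (∀ i, constantCoeff (s i) = 0) → (∀ i, constantCoeff (s' i) = 0) →
    (∀ j, subst s (a j) = subst s' (a' j)) →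
    ((tanM a a' s s' c).submatrix r id).det ≠ 0 →
    Tv (pf u x a) (pf u x a') (fun i => bc K L (Fin q) (s i)) (fun i => bc K L (Fin q) (s' i))

/-- TVD. A nonzero maximal minor gives transversality. -/
def TVDStmt : Prop :=
  ∀ (K : Type) [Field K] (n p p' q : ℕ) (a : Fin n → MvPowerSeries (Fin p) K)
    (a' : Fin n → MvPowerSeries (Fin p') K) (s : Fin p → MvPowerSeries (Fin q) K)
    (s' : Fin p' → MvPowerSeries (Fin q) K) (c : Fin n → Fin p ⊕ Fin p'),
    (∀ i, constantCoeff (s i) = 0) → (∀ i, constantCoeff (s' i) = 0) →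
    (∀ j, subst s (a j) = subst s' (a' j)) → (tanM a a' s s' c).det ≠ 0 → Tv a a' s s'

/-- TGP. Linearly independent tangent vectors of arcs stay linearly independent (`2 ≤ n`):
`tg (pf u x a) = u * jac0 x * tg a`, GIN. -/
def TGPStmt : Prop :=
  ∀ (K L : Type) [Field K] [Field L] [Algebra K L] (n : ℕ) (u : Fin n → Fin (n + 1) → L)
    (x : Fin (n + 1) → MvPowerSeries (Fin (n + 1)) K)
    (a b : Fin (n + 1) → MvPowerSeries (Fin 1) K), 2 ≤ n → Gen K u → Coord x →
    (∀ i, constantCoeff (a i) = 0) → (∀ i, constantCoeff (b i) = 0) →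
    LinearIndependent K ![tg a, tg b] → LinearIndependent L ![tg (pf u x a), tg (pf u x b)]

/-- LV2. Plane curve with two points arcs of independent tangents: singular. -/
def LV2Stmt : Prop :=
  ∀ (K : Type) [Field K] (I : Ideal (MvPowerSeries (Fin 2) K))
    (a b : Fin 2 → MvPowerSeries (Fin 1) K), Van I a → Van I b →
    LinearIndependent K ![tg a, tg b] → singI I ≠ ⊤

/-- LV3. Level 3. (BCO, TPU, TGP, LV2.) -/
def LV3Stmt : Prop :=
  ∀ (K : Type) [Field K] (I : Ideal (MvPowerSeries (Fin 3) K))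
    (c m : Fin 3 → MvPowerSeries (Fin 1) K), SV I c → SV I m →
    LinearIndependent K ![tg c, tg m] → ∀ P, ¬ Equi 1 3 K I P

/-- LV4. Level 4. (BCO; TPU for the three surfaces; GPU; PFS; TGP; LV3.) -/
def LV4Stmt : Prop :=
  ∀ (K : Type) [Field K] (I : Ideal (MvPowerSeries (Fin 4) K))
    (A B R : Fin 4 → MvPowerSeries (Fin 2) K) (c c' m m' : Fin 2 → MvPowerSeries (Fin 1) K)
    (cc cm : Fin 3 → Fin 2 ⊕ Fin 2) (rc rm : Fin 3 → Fin 4), SV I A → SV I B → SV I R →
    (∀ i, constantCoeff (c i) = 0) → (∀ i, constantCoeff (c' i) = 0) →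
    (∀ i, constantCoeff (m i) = 0) → (∀ i, constantCoeff (m' i) = 0) →
    (∀ j, subst c (A j) = subst c' (B j)) → (∀ j, subst m (A j) = subst m' (R j)) →
    ((tanM A B c c' cc).submatrix rc id).det ≠ 0 →
    ((tanM A R m m' cm).submatrix rm id).det ≠ 0 →
    LinearIndependent K ![tg (fun j => subst c (A j)), tg (fun j => subst m (A j))] →
    ∀ P, ¬ Equi 2 4 K I P

/-! ## Part 4: the secant surfaces (from level 5 to level 4) -/

/-- Family `Y_a` (parameters `X 0 = σ`, `X 1 = x5`, `X 2 = t`). -/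
noncomputable def fA {K : Type} [Field K] (v : Fin 6 → K) : Fin 5 → MvPowerSeries (Fin 3) K :=
  ![0, C (v 2) * X 0 + C (v 1 ^ 2) * X 2 * X 0 ^ 2, C (v 3) * X 0, X 1 + C (v 4) * X 0,
    X 2 + C (v 5) * X 0]

/-- Family `Y_b`. -/
noncomputable def fB {K : Type} [Field K] (v : Fin 6 → K) : Fin 5 → MvPowerSeries (Fin 3) K :=
  ![(C (v 2) * X 0 + C (v 1 ^ 2) * X 2 * X 0 ^ 2) ^ 3,
    C (v 2) * X 0 + C (v 1 ^ 2) * X 2 * X 0 ^ 2,
    C (v 3) * X 0 + C (v 1 ^ 2) * X 0 ^ 2 * X 1, X 1 + C (v 4) * X 0, X 2 + C (v 5) * X 0]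

/-- Family `Y_b'`. -/
noncomputable def fC {K : Type} [Field K] (v : Fin 6 → K) : Fin 5 → MvPowerSeries (Fin 3) K :=
  ![-((C (v 2) * X 0 + C (v 1 ^ 2) * X 2 * X 0 ^ 2 + C (v 1 ^ 2) * X 0 ^ 2 * X 1) ^ 2 *
      (C (v 3) * X 0)),
    C (v 2) * X 0 + C (v 1 ^ 2) * X 2 * X 0 ^ 2 + C (v 1 ^ 2) * X 0 ^ 2 * X 1,
    C (v 3) * X 0, X 1 + C (v 4) * X 0, X 2 + C (v 5) * X 0]

/-- Two flat families. -/
noncomputable def fL (K : Type) [Field K] : Fin 5 → MvPowerSeries (Fin 3) K :=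
  ![0, 0, X 0, X 1, X 2]

/-- Two flat families. -/
noncomputable def fR (K : Type) [Field K] : Fin 5 → MvPowerSeries (Fin 3) K :=
  ![0, X 0, 0, X 1, X 2]

/-- Parameters `σ = x`, `x5 = x η`, `t` (`X 0 = x`, `X 1 = t`). -/
noncomputable def prm {L : Type} [Field L] (η : MvPowerSeries (Fin 2) L) :
    Fin 3 → MvPowerSeries (Fin 2) L :=
  ![X 0, X 0 * η, X 1]

/-- Parameters `x - x³ δ_0`, `x η - x³ δ_1`, `t - x³ δ_2`. -/
noncomputable def prm' {L : Type} [Field L] (η : MvPowerSeries (Fin 2) L)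
    (d : Fin 3 → MvPowerSeries (Fin 2) L) : Fin 3 → MvPowerSeries (Fin 2) L :=
  ![X 0 - X 0 ^ 3 * d 0, X 0 * η - X 0 ^ 3 * d 1, X 1 - X 0 ^ 3 * d 2]

/-- `(η, d, ρ)` is a secant surface of the families `F`, `F'` in the direction `kv u`:
`φ(F(prm η)) - φ(F'(prm' η d)) = x³ ρ * kv u`. -/
def Sol {K L : Type} [Field K] [Field L] [Algebra K L] (u : Fin 4 → Fin 5 → L)
    (φ : Fin 5 → MvPowerSeries (Fin 5) K) (F F' : Fin 5 → MvPowerSeries (Fin 3) K)
    (η : MvPowerSeries (Fin 2) L) (d : Fin 3 → MvPowerSeries (Fin 2) L)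
    (ρ : MvPowerSeries (Fin 2) L) : Prop :=
  ∀ i, subst (fun j => subst (prm η) (bc K L (Fin 3) (F j))) (bc K L (Fin 5) (φ i)) -
    subst (fun j => subst (prm' η d) (bc K L (Fin 3) (F' j))) (bc K L (Fin 5) (φ i)) =
    C (kv u i) * X 0 ^ 3 * ρ

/-- The quotient `(fA(prm η) - fB(prm' η d)) / x³`, `κ = 1 - x² d_0`, `τ = t - x³ d_2`. -/
noncomputable def gB {L : Type} [Field L] (v : Fin 6 → L) (η : MvPowerSeries (Fin 2) L)
    (d : Fin 3 → MvPowerSeries (Fin 2) L) : Fin 5 → MvPowerSeries (Fin 2) L :=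
  ![-((1 - X 0 ^ 2 * d 0) *
      (C (v 2) + C (v 1 ^ 2) * (X 1 - X 0 ^ 3 * d 2) * X 0 * (1 - X 0 ^ 2 * d 0))) ^ 3,
    C (v 2) * d 0 + C (v 1 ^ 2) * (2 * X 0 * X 1 * d 0 - X 0 ^ 3 * X 1 * d 0 ^ 2 +
      X 0 ^ 2 * d 2 * (1 - X 0 ^ 2 * d 0) ^ 2),
    C (v 3) * d 0 - C (v 1 ^ 2) * (1 - X 0 ^ 2 * d 0) ^ 2 * (η - X 0 ^ 2 * d 1),
    d 1 + C (v 4) * d 0, d 2 + C (v 5) * d 0]

/-- The quotient `(fA(prm η) - fC(prm' η d)) / x³`. -/
noncomputable def gC {L : Type} [Field L] (v : Fin 6 → L) (η : MvPowerSeries (Fin 2) L)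
    (d : Fin 3 → MvPowerSeries (Fin 2) L) : Fin 5 → MvPowerSeries (Fin 2) L :=
  ![(1 - X 0 ^ 2 * d 0) ^ 3 * C (v 3) *
      (C (v 2) + C (v 1 ^ 2) * X 0 * (1 - X 0 ^ 2 * d 0) *
        (X 1 - X 0 ^ 3 * d 2 + X 0 * (η - X 0 ^ 2 * d 1))) ^ 2,
    C (v 2) * d 0 + C (v 1 ^ 2) * (2 * X 0 * X 1 * d 0 - X 0 ^ 3 * X 1 * d 0 ^ 2 +
      X 0 ^ 2 * d 2 * (1 - X 0 ^ 2 * d 0) ^ 2) -
      C (v 1 ^ 2) * (1 - X 0 ^ 2 * d 0) ^ 2 * (η - X 0 ^ 2 * d 1),
    C (v 3) * d 0, d 1 + C (v 4) * d 0, d 2 + C (v 5) * d 0]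

/-- GID. The two quotients (`ring`). -/
def GIDStmt : Prop :=
  ∀ (K L : Type) [Field K] [Field L] [Algebra K L] (v : Fin 6 → K)
    (η : MvPowerSeries (Fin 2) L) (d : Fin 3 → MvPowerSeries (Fin 2) L) (j : Fin 5),
    subst (prm η) (bc K L (Fin 3) (fA v j)) - subst (prm' η d) (bc K L (Fin 3) (fB v j)) =
      X 0 ^ 3 * gB (fun i => algebraMap K L (v i)) η d j ∧
    subst (prm η) (bc K L (Fin 3) (fA v j)) - subst (prm' η d) (bc K L (Fin 3) (fC v j)) =
      X 0 ^ 3 * gC (fun i => algebraMap K L (v i)) η d j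

/-- EXA. Existence of the secant surface `α`. Let `q_i` be the Hadamard quotients (HAD) of `φ_i`
(over `L`), `S = L[[x, t]]`, `m` its maximal ideal, `w = kv u`, `N = jac0 φ`. By HAD and GID,
`Sol` is implied by `F(η, d, ρ) = 0`, where
`F_i = ∑_m subst (Sum.elim (fA(prm η)) (fB(prm' η d))) (q_i m) * gB_m - C (w_i) ρ`.
Apply NEW with `n = 5`, `y = (η, d_0, d_1, d_2, ρ)`.
At `x = t = 0` the system is `N (-v2³, v2 d_0, v3 d_0 - v1² η, d_1 + v4 d_0, d_2 + v5 d_0) = ρ w`,
with `w' = N⁻¹ w`, i.e. `ρ w'_0 = - v2³`, `v2 d_0 = ρ w'_1`, `v3 d_0 - v1² η = ρ w'_2`, ...; the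
solution `y0` exists and is unique as `w'_0 ≠ 0` (GVK for the linear form `w ↦ w'_0`), and
`v1² v2 η_0 = ρ (v3 w'_1 - v2 w'_2) ≠ 0` (GVK).  `M = N * [d/dη, d/dd, ..] - w` is invertible.
The contraction property: `gB` is polynomial in `(η, d)`, and the arguments of `q_i` depend on `y`
only through `x * y`. -/
def EXAStmt : Prop :=
  ∀ (K L : Type) [Field K] [CharZero K] [Field L] [Algebra K L] (u : Fin 4 → Fin 5 → L)
    (v : Fin 6 → K) (φ : Fin 5 → MvPowerSeries (Fin 5) K), Gen K u → v 1 ≠ 0 → v 2 ≠ 0 →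
    v 3 ≠ 0 → Coord φ → ∃ (η : MvPowerSeries (Fin 2) L) (d : Fin 3 → MvPowerSeries (Fin 2) L)
      (ρ : MvPowerSeries (Fin 2) L), Sol u φ (fA v) (fB v) η d ρ ∧ constantCoeff η ≠ 0 ∧
      constantCoeff ρ ≠ 0

/-- EXB. Existence of the secant surface `β`: the same with `gC`; at the origin
`N (v3 v2², v2 d_0 - v1² η, v3 d_0, d_1 + v4 d_0, d_2 + v5 d_0) = ρ w`. -/
def EXBStmt : Prop :=
  ∀ (K L : Type) [Field K] [CharZero K] [Field L] [Algebra K L] (u : Fin 4 → Fin 5 → L)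
    (v : Fin 6 → K) (φ : Fin 5 → MvPowerSeries (Fin 5) K), Gen K u → v 1 ≠ 0 → v 2 ≠ 0 →
    v 3 ≠ 0 → Coord φ → ∃ (η : MvPowerSeries (Fin 2) L) (d : Fin 3 → MvPowerSeries (Fin 2) L)
      (ρ : MvPowerSeries (Fin 2) L), Sol u φ (fA v) (fC v) η d ρ ∧ constantCoeff η ≠ 0 ∧
      constantCoeff ρ ≠ 0

/-- CRS. Cross relation, `k = 1, 2`: if `x^k` divides `x (η - η')` then `ρ' gB ≡ ρ gC` modulo `x^k`.
HAD + GID: `x³ ∑_m Q_im gB_m = C (w_i) x³ ρ`, `x³ ∑_m Q'_im gC_m = C (w_i) x³ ρ'`, where the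
matrices `Q`, `Q'` are congruent modulo `x³` to `(∂_m φ_i)(fA(prm η))`, `(∂_m φ_i)(fA(prm η'))`
(HAD, second part, and HAD for `q_i`), and these two points differ by `(0, 0, 0, x (η - η'), 0)`;
so `Q (ρ' gB - ρ gC) ≡ 0` modulo `x^k`, and `Q` is invertible (its constant term is `jac0 φ`). -/
def CRSStmt : Prop :=
  ∀ (K L : Type) [Field K] [Field L] [Algebra K L] (u : Fin 4 → Fin 5 → L)
    (v : Fin 6 → K) (φ : Fin 5 → MvPowerSeries (Fin 5) K)
    (η η' : MvPowerSeries (Fin 2) L) (d d' : Fin 3 → MvPowerSeries (Fin 2) L)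
    (ρ ρ' : MvPowerSeries (Fin 2) L) (k : ℕ), k ≤ 2 → Coord φ →
    Sol u φ (fA v) (fB v) η d ρ → Sol u φ (fA v) (fC v) η' d' ρ' →
    (X 0 : MvPowerSeries (Fin 2) L) ^ k ∣ X 0 * (η - η') →
    ∀ j, (X 0 : MvPowerSeries (Fin 2) L) ^ k ∣
      ρ' * gB (fun i => algebraMap K L (v i)) η d j -
      ρ * gC (fun i => algebraMap K L (v i)) η' d' j

/-- CON. The congruence modulo `x²` (the heart). Put `a = v2`, `b = v1²`, `g = v3`,
`s = a + 2btx`, `c = a + btx`. Modulo `x²`: `gB ≡ (-c³, s d_0, g d_0 - b η, ..)`,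
`gC ≡ (c² g, s d'_0 - b η', g d'_0, ..)`. CRS: `-ρ' c³ ≡ ρ c² g`, so `ρ' c ≡ -ρ g`;
`ρ' (g d_0 - b η) ≡ ρ g d'_0`; `ρ' s d_0 ≡ ρ (s d'_0 - b η')`. Eliminate `d'_0`:
`ρ' s d_0 ≡ s ρ' (g d_0 - b η)/g - ρ b η'`, so `s ρ' η ≡ - g ρ η' ≡ ρ' c η'` and `s η ≡ c η'`
(`ρ'`, `c` are units). First with `k = 1` (then `x ∣ η - η'`), then with `k = 2`. -/
def CONStmt : Prop :=
  ∀ (K L : Type) [Field K] [CharZero K] [Field L] [Algebra K L] (u : Fin 4 → Fin 5 → L)
    (v : Fin 6 → K) (φ : Fin 5 → MvPowerSeries (Fin 5) K)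
    (η η' : MvPowerSeries (Fin 2) L) (d d' : Fin 3 → MvPowerSeries (Fin 2) L)
    (ρ ρ' : MvPowerSeries (Fin 2) L), v 1 ≠ 0 → v 2 ≠ 0 → v 3 ≠ 0 → Coord φ →
    Sol u φ (fA v) (fB v) η d ρ → Sol u φ (fA v) (fC v) η' d' ρ' →
    constantCoeff ρ ≠ 0 → constantCoeff ρ' ≠ 0 →
    (X 0 : MvPowerSeries (Fin 2) L) ^ 2 ∣
      (C (algebraMap K L (v 2)) + 2 * C (algebraMap K L (v 1 ^ 2)) * X 1 * X 0) * η -
      (C (algebraMap K L (v 2)) + C (algebraMap K L (v 1 ^ 2)) * X 1 * X 0) * η'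

/-- TCC. The curve `t = t_C(x)` where the two surfaces meet: `η - η' = x e`,
`v2 e = x h - v1² t (2 η - η')`, so `e(0) = 0`, `∂_t e (0) = - v1² η(0) / v2 ≠ 0`; NEW (or the
implicit function theorem in one variable) gives `t_C`, and `∂_t (η - η') = x ∂_t e`. -/
def TCCStmt : Prop :=
  ∀ (L : Type) [Field L] (v1 v2 : L) (η η' : MvPowerSeries (Fin 2) L), v1 ≠ 0 → v2 ≠ 0 →
    constantCoeff η ≠ 0 →
    (X 0 : MvPowerSeries (Fin 2) L) ^ 2 ∣ (C v2 + 2 * C v1 * X 1 * X 0) * η -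
      (C v2 + C v1 * X 1 * X 0) * η' →
    ∃ tc : MvPowerSeries (Fin 1) L, constantCoeff tc = 0 ∧
      subst ![X 0, tc] η = subst ![X 0, tc] η' ∧
      subst ![X 0, tc] (pderiv L 1 (η - η')) ≠ 0

/-- TVA. Transversality along `α`. The common subfamily: `Sol` and `∑_j u_ij kv u j = 0` (GVK).
Columns (TVD): the three tangent vectors of `pf u φ (fA v)` and `∂/∂X 1` of `pf u φ (fB v)`.
Chain rule: the columns are `u * (∂φ)(fA(prm η)) * ∂_m fA` and `u * (∂φ)(fB(prm' η d)) * ∂_1 fB`,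
`∂_1 fB = e_3 + b σ'² e_2`, `∂_1 fA = e_3`, `σ' ≡ x` modulo `x³`, the two matrices `∂φ` are congruent
modulo `x³` (GID, HAD for `∂_m φ_i`).  So the determinant is congruent modulo `x³` to
`b x² det [u ∂φ ∂_0 fA, u ∂φ e_3, u ∂φ ∂_2 fA, u ∂φ e_2]`, whose last factor has the constant term
`det (u * jac0 φ * [(0, v2, v3, v4, v5), e_3, e_4, e_2]) ≠ 0` (GDF, `v2 ≠ 0`). -/
def TVAStmt : Prop :=
  ∀ (K L : Type) [Field K] [CharZero K] [Field L] [Algebra K L] (u : Fin 4 → Fin 5 → L)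
    (v : Fin 6 → K) (φ : Fin 5 → MvPowerSeries (Fin 5) K)
    (η : MvPowerSeries (Fin 2) L) (d : Fin 3 → MvPowerSeries (Fin 2) L)
    (ρ : MvPowerSeries (Fin 2) L), Gen K u → v 1 ≠ 0 → v 2 ≠ 0 → v 3 ≠ 0 → Coord φ →
    Sol u φ (fA v) (fB v) η d ρ →
    Tv (pf u φ (fA v)) (pf u φ (fB v)) (prm η) (prm' η d)

/-- TVB. Transversality along `β`: the same, `∂_1 fC = e_3 + b σ'² e_1 + O(x⁴)`,
`det (u * jac0 φ * [(0, v2, v3, v4, v5), e_3, e_4, e_1]) ≠ 0` as `v3 ≠ 0`. -/
def TVBStmt : Prop :=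
  ∀ (K L : Type) [Field K] [CharZero K] [Field L] [Algebra K L] (u : Fin 4 → Fin 5 → L)
    (v : Fin 6 → K) (φ : Fin 5 → MvPowerSeries (Fin 5) K)
    (η : MvPowerSeries (Fin 2) L) (d : Fin 3 → MvPowerSeries (Fin 2) L)
    (ρ : MvPowerSeries (Fin 2) L), Gen K u → v 1 ≠ 0 → v 2 ≠ 0 → v 3 ≠ 0 → Coord φ →
    Sol u φ (fA v) (fC v) η d ρ →
    Tv (pf u φ (fA v)) (pf u φ (fC v)) (prm η) (prm' η d)

/-- TVL. Transversality of the two flat families along `x3 = x4 = 0` (GPU with `n = 4`: the tangent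
vectors `e_2, e_3, e_4` and `e_1`). -/
def TVLStmt : Prop :=
  ∀ (K L : Type) [Field K] [Field L] [Algebra K L] (u : Fin 4 → Fin 5 → L)
    (φ : Fin 5 → MvPowerSeries (Fin 5) K), Gen K u → Coord φ →
    Tv (pf u φ (fL K)) (pf u φ (fR K)) (![0, X 0, X 1] : Fin 3 → MvPowerSeries (Fin 2) L)
      (![0, X 0, X 1] : Fin 3 → MvPowerSeries (Fin 2) L)

/-- RKC. Along the curve `c = (x, t_C)`: the surfaces `α`, `β` meet and their tangent planes are
different. Columns `∂_x`, `∂_t` of `α` and `∂_t` of `β`: they are the images under the tangent map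
of `T = pf u φ (fA v)` (`4 × 3`, some `3 × 3` minor of its constant term is nonzero by GDF, expand
the determinant in TVA along the last column) of `(1, *, 0)`, `(0, x η_t, 1)`, `(0, x η'_t, 1)`,
determinant `x (η - η')_t` at `c`, nonzero. -/
def RKCStmt : Prop :=
  ∀ (K L : Type) [Field K] [CharZero K] [Field L] [Algebra K L] (u : Fin 4 → Fin 5 → L)
    (v : Fin 6 → K) (φ : Fin 5 → MvPowerSeries (Fin 5) K) (η η' : MvPowerSeries (Fin 2) L)
    (tc : MvPowerSeries (Fin 1) L), Gen K u → v 2 ≠ 0 → v 3 ≠ 0 → Coord φ →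
    constantCoeff tc = 0 → subst ![X 0, tc] η = subst ![X 0, tc] η' →
    subst ![X 0, tc] (pderiv L 1 (η - η')) ≠ 0 →
    (∀ j, subst ![X 0, tc] (subst (prm η) (pf u φ (fA v) j)) =
      subst ![X 0, tc] (subst (prm η') (pf u φ (fA v) j))) ∧
    ∃ (cc : Fin 3 → Fin 2 ⊕ Fin 2) (r : Fin 3 → Fin 4),
      ((tanM (fun j => subst (prm η) (pf u φ (fA v) j)) (fun j => subst (prm η') (pf u φ (fA v) j))
        (![X 0, tc] : Fin 2 → MvPowerSeries (Fin 1) L) ![X 0, tc] cc).submatrix r id).det ≠ 0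

/-- RKM. Along `M` (`x = 0`): the surface `α` and the flat surface have different tangent planes.
Both pass through `(0, 0, 0, 0, t)`; the tangent vectors are the images of `(1, η(0,t), 0)`,
`(0, 0, 1)` and (for `fL`, `∂_1 fL = e_3 = ∂_1 fA`) `(0, 1, 0)` under the tangent map of `T`. -/
def RKMStmt : Prop :=
  ∀ (K L : Type) [Field K] [CharZero K] [Field L] [Algebra K L] (u : Fin 4 → Fin 5 → L)
    (v : Fin 6 → K) (φ : Fin 5 → MvPowerSeries (Fin 5) K) (η : MvPowerSeries (Fin 2) L),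
    Gen K u → v 2 ≠ 0 → v 3 ≠ 0 → Coord φ →
    (∀ j, subst ![0, X 0] (subst (prm η) (pf u φ (fA v) j)) =
      subst (![0, X 0] : Fin 2 → MvPowerSeries (Fin 1) L)
        (subst (![0, X 0, X 1] : Fin 3 → MvPowerSeries (Fin 2) L) (pf u φ (fL K) j))) ∧
    ∃ (cc : Fin 3 → Fin 2 ⊕ Fin 2) (r : Fin 3 → Fin 4),
      ((tanM (fun j => subst (prm η) (pf u φ (fA v) j))
        (fun j => subst (![0, X 0, X 1] : Fin 3 → MvPowerSeries (Fin 2) L) (pf u φ (fL K) j))
        (![0, X 0] : Fin 2 → MvPowerSeries (Fin 1) L) ![0, X 0] cc).submatrix r id).det ≠ 0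

/-- TGC. The tangents of the two curves at the origin are the images of `(1, η(0), t_C'(0))` and
`(0, 0, 1)` under the injective tangent map of `T` at the origin. -/
def TGCStmt : Prop :=
  ∀ (K L : Type) [Field K] [CharZero K] [Field L] [Algebra K L] (u : Fin 4 → Fin 5 → L)
    (v : Fin 6 → K) (φ : Fin 5 → MvPowerSeries (Fin 5) K) (η : MvPowerSeries (Fin 2) L)
    (tc : MvPowerSeries (Fin 1) L), Gen K u → v 2 ≠ 0 → v 3 ≠ 0 → Coord φ →
    constantCoeff tc = 0 →
    LinearIndependent L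
      ![tg (fun j => subst (![X 0, tc] : Fin 2 → MvPowerSeries (Fin 1) L)
          (subst (prm η) (pf u φ (fA v) j))),
        tg (fun j => subst (![0, X 0] : Fin 2 → MvPowerSeries (Fin 1) L)
          (subst (prm η) (pf u φ (fA v) j)))]

/-- LV5. Level 5: assembly of part 4. First alternative: BCO. Second: `x` is a coordinate system
(BCO), `φ_j = x_j (G z)` too, `pf u x (G f) = pf u φ f`, `u = uu 4 K`, `L = KU 4 K`; TPU for the five
families; EXA, EXB, CON, TCC; TVA, TVB, TVL give `SV` for the three surfaces; RKC, RKM, TGC, LV4. -/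
def LV5Stmt : Prop :=
  ∀ (K : Type) [Field K] [CharZero K] (v : Fin 6 → K) (G : Matrix (Fin 5) (Fin 5) K)
    (I : Ideal (MvPowerSeries (Fin 5) K)), v 1 ≠ 0 → v 2 ≠ 0 → v 3 ≠ 0 → G.det ≠ 0 →
    SV I (fun i => ∑ m, C (G i m) * fA v m) → SV I (fun i => ∑ m, C (G i m) * fB v m) →
    SV I (fun i => ∑ m, C (G i m) * fC v m) → SV I (fun i => ∑ m, C (G i m) * fL K m) →
    SV I (fun i => ∑ m, C (G i m) * fR K m) → ∀ P, ¬ Equi 3 5 K I P

/-! ## Part 5: the example (level 6) -/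

/-- The equation of `V`. -/
noncomputable def fV (K : Type) [Field K] : MvPowerSeries (Fin 6) K :=
  X 0 * (X 0 - X 2 ^ 3) * (X 0 + X 2 ^ 2 * X 3) * X 1 * X 2 * X 3 * (X 2 + X 3 - X 1 ^ 2 * X 4)

/-- The nonlinear basis. -/
noncomputable def bV (K : Type) [Field K] : Fin 6 → MvPowerSeries (Fin 6) K :=
  ![X 0, X 1, X 2 + X 5 * X 1 ^ 2, X 3, X 4, X 5]

/-- The codimension two families (parameters in the order of the free coordinates). -/
noncomputable def gP (K : Type) [Field K] : Fin 8 → Fin 6 → MvPowerSeries (Fin 4) K :=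
  ![![0, 0, X 0, X 1, X 2, X 3], ![X 0 ^ 3, 0, X 0, X 1, X 2, X 3],
    ![-(X 0 ^ 2 * X 1), 0, X 0, X 1, X 2, X 3], ![X 0, X 1, 0, 0, X 2, X 3],
    ![X 0, X 1, 0, X 1 ^ 2 * X 2, X 2, X 3], ![X 0, X 1, X 1 ^ 2 * X 2, 0, X 2, X 3],
    ![0, X 0, 0, X 1, X 2, X 3], ![0, X 0, X 1, 0, X 2, X 3]]

/-- SV6. The eight families are transversal intersections of two of the seven smooth hypersurfaces
`X 0`, `X 0 - X 2 ^ 3`, `X 0 + X 2 ^ 2 * X 3`, `X 1`, `X 2`, `X 3`, `X 2 + X 3 - X 1 ^ 2 * X 4`. -/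
def SV6Stmt : Prop :=
  ∀ (K : Type) [Field K] (k : Fin 8), SV (Ideal.span {fV K}) (gP K k)

/-- H5A. Level 5, family `Y_a`; and so on. -/
def H5AStmt : Prop :=
  ∀ (K L : Type) [Field K] [CharZero K] [Field L] [Algebra K L] (u : Fin 5 → Fin 6 → L),
    Gen K u → ∃ s s' : Fin 4 → MvPowerSeries (Fin 3) L,
    Tv (pf u (bV K) (gP K 0)) (pf u (bV K) (gP K 3)) s s' ∧
    ∀ i, subst s (pf u (bV K) (gP K 0) i) = ∑ m, C (u i ((1 : Fin 6).succAbove m)) * fA (kv u) m

/-- H5B. -/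
def H5BStmt : Prop :=
  ∀ (K L : Type) [Field K] [CharZero K] [Field L] [Algebra K L] (u : Fin 5 → Fin 6 → L),
    Gen K u → ∃ s s' : Fin 4 → MvPowerSeries (Fin 3) L,
    Tv (pf u (bV K) (gP K 1)) (pf u (bV K) (gP K 4)) s s' ∧
    ∀ i, subst s (pf u (bV K) (gP K 1) i) = ∑ m, C (u i ((1 : Fin 6).succAbove m)) * fB (kv u) m

/-- H5C. -/
def H5CStmt : Prop :=
  ∀ (K L : Type) [Field K] [CharZero K] [Field L] [Algebra K L] (u : Fin 5 → Fin 6 → L),
    Gen K u → ∃ s s' : Fin 4 → MvPowerSeries (Fin 3) L,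
    Tv (pf u (bV K) (gP K 2)) (pf u (bV K) (gP K 5)) s s' ∧
    ∀ i, subst s (pf u (bV K) (gP K 2) i) = ∑ m, C (u i ((1 : Fin 6).succAbove m)) * fC (kv u) m

/-- H5L. -/
def H5LStmt : Prop :=
  ∀ (K L : Type) [Field K] [CharZero K] [Field L] [Algebra K L] (u : Fin 5 → Fin 6 → L),
    Gen K u → ∃ s s' : Fin 4 → MvPowerSeries (Fin 3) L,
    Tv (pf u (bV K) (gP K 0)) (pf u (bV K) (gP K 6)) s s' ∧
    ∀ i, subst s (pf u (bV K) (gP K 0) i) = ∑ m, C (u i ((1 : Fin 6).succAbove m)) * fL L m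

/-- H5R. -/
def H5RStmt : Prop :=
  ∀ (K L : Type) [Field K] [CharZero K] [Field L] [Algebra K L] (u : Fin 5 → Fin 6 → L),
    Gen K u → ∃ s s' : Fin 4 → MvPowerSeries (Fin 3) L,
    Tv (pf u (bV K) (gP K 0)) (pf u (bV K) (gP K 7)) s s' ∧
    ∀ i, subst s (pf u (bV K) (gP K 0) i) = ∑ m, C (u i ((1 : Fin 6).succAbove m)) * fR L m

/-- NEG. The nonlinear basis is not equisingular. -/
def NEGStmt : Prop :=
  ∀ (K : Type) [Field K] [CharZero K] (P : Ideal (MvPowerSeries (Fin 5) (KU 5 K))),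
    ¬ Equi 3 5 (KU 5 K) (critI (uu 5 K) (bV K) (Ideal.span {fV K})) P

/-- RAD. The equation of `V` is reduced. -/
def RADStmt : Prop :=
  ∀ (K : Type) [Field K] [CharZero K], (Ideal.span {fV K}).IsRadical

/-- PLX. The ideal of the line `M`. -/
def PLXStmt : Prop :=
  ∀ (K : Type) [Field K], PL (Pi.single 5 1 : Fin 6 → K) =
    Ideal.span {X 0, X 1, X 2, X 3, X 4} ∧
    (Ideal.span {X 0, X 1, X 2, X 3, X 4} : Ideal (MvPowerSeries (Fin 6) K)).IsPrime

/-- BBV. `bV` is a basis of the maximal ideal of the local ring of `V`. -/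
def BBVStmt : Prop :=
  ∀ (K : Type) [Field K], IsBasis (Ideal.span {fV K}) (bV K)

/-- STV. `∂_5 fV = 0`. -/
def STVStmt : Prop :=
  ∀ (K : Type) [Field K], Stab (Pi.single 5 1 : Fin 6 → K) (Ideal.span {fV K})

/-- FIN. The answer to Q1 is no. -/
def FINStmt : Prop :=
  ∀ (B : (n : ℕ) → (K : Type) → [Field K] → (Fin n → MvPowerSeries (Fin n) K) → Prop),
    (∀ (n : ℕ) (K : Type) [Field K], B n K X) → ∀ (k : Type) [Field k] [CharZero k],
    (Ideal.span {fV k}).IsRadical ∧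
    (Ideal.span {X 0, X 1, X 2, X 3, X 4} : Ideal (MvPowerSeries (Fin 6) k)).IsPrime ∧
    (Ideal.span {fV k}) ≤ Ideal.span {X 0, X 1, X 2, X 3, X 4} ∧
    IsBasis (Ideal.span {fV k}) (bV k) ∧
    EquiB B 4 6 k (Ideal.span {fV k}) (Ideal.span {X 0, X 1, X 2, X 3, X 4}) ∧
    ¬ EquiB B 3 5 (KU 5 k) (critI (uu 5 k) (bV k) (Ideal.span {fV k}))
      (imgI (uu 5 k) (bV k) (Ideal.span {X 0, X 1, X 2, X 3, X 4}))

end Pool.Agent.ZAR
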